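import Pool.Agent.Helper749.Fp.Fin

open MeasureTheory Metric Set Filter Topology
open scoped ENNReal NNReal RealInnerProductSpace ContDiff

set_option autoImplicit false

namespace Pool.Agent.Results.MP_3f21bd_an.Continuity

/-- Euclidean space `ℝⁿ` with the Euclidean norm. -/
abbrev E (n : ℕ) : Type := EuclideanSpace ℝ (Fin n)

/-- `u ∈ W^{s,p}_loc(Ω; ℝᵐ)`: on every compact subset `K` of `Ω` the integral of `|u|^p` and the
Gagliardo integral of `|u(x)-u(y)|^p / |x-y|^{n+sp}` over `K × K` are finite. -/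
def MemWspLoc (n m : ℕ) (p s : ℝ) (Ω : Set (E n)) (u : E n → E m) : Prop :=
  ∀ K : Set (E n), IsCompact K → K ⊆ Ω →
    (∫⁻ x in K, ENNReal.ofReal (‖u x‖ ^ p) < ⊤) ∧
    (∫⁻ x in K, ∫⁻ y in K, ENNReal.ofReal (‖u x - u y‖ ^ p / ‖x - y‖ ^ ((n : ℝ) + s * p)) < ⊤)

/-- Finite tail: the integral of `|u(y)|^{p-1} (1+|y|)^{-n-sp}` over `ℝⁿ` is finite. -/
def FiniteTail (n m : ℕ) (p s : ℝ) (u : E n → E m) : Prop :=
  ∫⁻ y, ENNReal.ofReal (‖u y‖ ^ (p - 1) * (1 + ‖y‖) ^ (-(n : ℝ) - s * p)) < ⊤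

/-- The double integral of
`|u(x)-u(y)|^{p-2} (u(x)-u(y)) · (φ(x)-φ(y)) / |x-y|^{n+sp}` over `ℝⁿ × ℝⁿ`. -/
noncomputable def pairing (n m : ℕ) (p s : ℝ) (u φ : E n → E m) : ℝ :=
  ∫ z : E n × E n, ‖u z.1 - u z.2‖ ^ (p - 2) * ⟪u z.1 - u z.2, φ z.1 - φ z.2⟫ /
    ‖z.1 - z.2‖ ^ ((n : ℝ) + s * p)

/-- Weak solutions of the system `(-Δ_p)^s u = 0` in `Ω`. -/
structure IsWeakSolution (n m : ℕ) (p s : ℝ) (Ω : Set (E n)) (u : E n → E m) : Prop where
  measurable : AEMeasurable u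
  sobolev : MemWspLoc n m p s Ω u
  tail : FiniteTail n m p s u
  equation : ∀ φ : E n → E m, ContDiff ℝ ∞ φ → HasCompactSupport φ → tsupport φ ⊆ Ω →
    pairing n m p s u φ = 0

open Pool.Agent.Helper749.Fp in
/-- transfer to the internal data for a measurable representative -/
theorem toSol {n m : ℕ} (_hn : 1 ≤ n) {p s : ℝ} {Ω : Set (E n)} {u v : E n → E m}
    (hu : IsWeakSolution n m p s Ω u) (hv : Measurable v) (huv : u =ᵐ[volume] v) :
    Sol p (s * p) Ω v := by
  have hfin : (Module.finrank ℝ (E n) : ℝ) = n := by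
    rw [finrank_euclideanSpace_fin]
  have hkr : ∀ (x y : E n) (a : ℝ), a * kr (s * p) x y = a / ‖x - y‖ ^ ((n : ℝ) + s * p) := by
    intro x y a
    unfold kr
    rw [hfin, Real.rpow_neg (norm_nonneg _), div_eq_mul_inv]
  have huv2 : ∀ᵐ z : E n × E n, u z.1 = v z.1 ∧ u z.2 = v z.2 := by
    rw [Measure.volume_eq_prod]
    exact (Measure.quasiMeasurePreserving_fst.ae huv).and
      (Measure.quasiMeasurePreserving_snd.ae huv)
  refine ⟨hv, ?_, ?_, ?_, ?_⟩
  · intro K hK hKΩ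
    refine lt_of_le_of_lt (le_of_eq ?_) (hu.sobolev K hK hKΩ).1
    apply lintegral_congr_ae
    filter_upwards [ae_restrict_of_ae huv] with x hx
    rw [hx]
  · intro K hK hKΩ
    have hkm := kr_meas (V := E n) (s * p)
    rw [setLIntegral_prod' _ _ _ (by fun_prop)]
    refine lt_of_le_of_lt (le_of_eq ?_) (hu.sobolev K hK hKΩ).2
    apply lintegral_congr_ae
    filter_upwards [ae_restrict_of_ae huv] with x hx
    apply lintegral_congr_ae
    filter_upwards [ae_restrict_of_ae huv] with y hy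
    rw [hx, hy]
    simp only [hkr]
  · refine lt_of_le_of_lt (le_of_eq ?_) hu.tail
    apply lintegral_congr_ae
    filter_upwards [huv] with x hx
    rw [hx, hfin]
    congr 3
    ring
  · intro φ h1 h2 h3
    have h4 := hu.equation φ h1 h2 h3
    unfold pairing at h4
    rw [← h4]
    apply integral_congr_ae
    filter_upwards [huv2] with z hz
    rw [hz.1, hz.2, hkr]

/-- **Continuity of weak solutions of fractional `p`-Laplace systems.** For all `n ≥ 1`, all `m`,
all `1 < p < ∞`, all `0 < s < 1` and every open `Ω ⊆ ℝⁿ`, every weak solution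
`u : ℝⁿ → ℝᵐ` of `(-Δ_p)^s u = 0` in `Ω` agrees almost everywhere in `Ω` with a function that
is continuous on `Ω`. -/
theorem result (n m : ℕ) (hn : 1 ≤ n) (p s : ℝ) (hp : 1 < p) (hs0 : 0 < s) (hs1 : s < 1)
    (Ω : Set (E n)) (hΩ : IsOpen Ω) (u : E n → E m) (hu : IsWeakSolution n m p s Ω u) :
    ∃ v : E n → E m, ContinuousOn v Ω ∧ ∀ᵐ x ∂(volume.restrict Ω), u x = v x := by
  have hα : 0 < s * p := by positivity
  have hαp : s * p < p := by nlinarith
  have hmk := hu.measurable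
  have hS := toSol hn hu hmk.measurable_mk hmk.ae_eq_mk
  have hV : Nontrivial (E n) := by
    have : Nonempty (Fin n) := ⟨⟨0, hn⟩⟩
    infer_instance
  rcases Nat.eq_zero_or_pos m with hm | hm
  · subst hm
    exact ⟨u, (continuous_of_const (fun x y => Subsingleton.elim _ _)).continuousOn,
      Eventually.of_forall (fun _ => rfl)⟩
  · have hW : Nontrivial (E m) := by
      have : Nonempty (Fin m) := ⟨⟨0, hm⟩⟩
      infer_instance
    obtain ⟨v, hv, hae⟩ := Pool.Agent.Helper749.Fp.main hp hα hαp hΩ hS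
    refine ⟨v, hv, ?_⟩
    filter_upwards [hae, ae_restrict_of_ae hmk.ae_eq_mk] with x h1 h2
    rw [h2, h1]

end Pool.Agent.Results.MP_3f21bd_an.Continuity
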